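import Pool.Agent.MWV.Stmts

/-!
# Squad MWV, row MKP (helper49): a marker on the wrong side of a light gives a spread
-/

set_option autoImplicit false

namespace Pool.Agent.MWV.H49

open Pool.Agent.MWV

/-- the relation is closed under the context operations -/
theorem ctx {N : ℕ} {S : List ℕ → List ℕ → Prop} (hS : Wo N S) (p q : List ℕ) {u v : List ℕ}
    (h : S u v) : S (p ++ (u ++ q)) (p ++ (v ++ q)) :=
  hS.app (hS.refl p) (hS.app h (hS.refl q))

/-- powers of `0` with exponents divisible by `N` -/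
theorem hz (hvy : HvyStmt) {N : ℕ} {S : List ℕ → List ℕ → Prop} (hS : Wo N S) {a b : ℕ}
    (ha : 1 ≤ a) (hb : 1 ≤ b) (h1 : a % N = 0) (h2 : b % N = 0) :
    S (List.replicate a 0) (List.replicate b 0) := by
  refine hvy N S hS _ _ ?_ ?_ ?_ ?_
  · intro c hc
    rw [List.eq_of_mem_replicate hc]
  · intro c hc
    rw [List.eq_of_mem_replicate hc]
  · intro c
    rw [List.mem_replicate, List.mem_replicate]
    constructor
    · rintro ⟨-, h⟩
      exact ⟨by omega, h⟩
    · rintro ⟨-, h⟩
      exact ⟨by omega, h⟩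
  · intro c
    rw [List.count_replicate, List.count_replicate]
    by_cases hc : (0 == c) = true
    · rw [if_pos hc, if_pos hc, h1, h2]
    · rw [if_neg hc, if_neg hc]

theorem flatMap_rep (h : ℕ → List ℕ) (N : ℕ) (h0 : h 0 = List.replicate N 0) (α : ℕ) :
    (List.replicate α 0).flatMap h = List.replicate (α * N) 0 := by
  induction α with
  | zero => simp
  | succ n ih =>
    rw [List.replicate_succ, List.flatMap_cons, ih, h0, List.replicate_append_replicate]
    congr 1
    ring

/-- the filter of the letters with nonempty value -/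
theorem flatMap_filter (f : ℕ → List ℕ) (p : ℕ → Bool) :
    ∀ L : List ℕ, (∀ a ∈ L, p a = false → f a = []) → L.flatMap f = (L.filter p).flatMap f := by
  intro L
  induction L with
  | nil => intro _; rfl
  | cons a L ih =>
    intro h
    have ih' := ih (fun b hb => h b (List.mem_cons_of_mem _ hb))
    by_cases hp : p a = true
    · rw [List.filter_cons_of_pos hp, List.flatMap_cons, List.flatMap_cons, ih']
    · rw [List.filter_cons_of_neg hp, List.flatMap_cons,
        h a List.mem_cons_self (by simpa using hp), ih']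
      rfl

theorem filterMap_one (i : ℕ) (l : List ℕ) :
    l.filterMap (fun e => if e = i then some 0 else none) = List.replicate (l.count i) 0 := by
  induction l with
  | nil => rfl
  | cons a l ih =>
    by_cases h : a = i
    · subst h
      rw [List.filterMap_cons_some (b := 0) (by simp), ih, List.count_cons_self,
        List.replicate_succ]
    · rw [List.filterMap_cons_none (by simp [h]), ih, List.count_cons_of_ne h]

/-- values of letters -/
theorem nil_of_flatMap {g : ℕ → List ℕ} {u : List ℕ} (h : u.flatMap g = []) :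
    ∀ a ∈ u, g a = [] := by
  intro a ha
  exact List.flatMap_eq_nil_iff.1 h a ha

/-- the two test substitutions -/
def gt (a1 a2 b : ℕ) (a : ℕ) : List ℕ := if a = a1 ∨ a = a2 then [1] else if a = b then [2] else []

theorem gt_ok {a1 a2 b : ℕ} (h1 : a1 % 3 ≠ 0) (h2 : a2 % 3 ≠ 0) (h3 : b % 3 ≠ 0) :
    ∀ h, h % 3 = 0 → ∀ a ∈ gt a1 a2 b h, a % 3 = 0 := by
  intro c hc a ha
  have e1 : ¬ (c = a1 ∨ c = a2) := by
    rintro (e | e)
    · rw [e] at hc; exact h1 hc
    · rw [e] at hc; exact h2 hc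
  have e2 : c ≠ b := fun e => h3 (by rw [← e]; exact hc)
  rw [gt, if_neg e1, if_neg e2] at ha
  exact absurd ha List.not_mem_nil

theorem nil_both {u v : List ℕ} {g : ℕ → List ℕ}
    (h : (u.flatMap g).length + (v.flatMap g).length = 0) : ∀ a ∈ u ++ v, g a = [] := by
  have h1 : u.flatMap g = [] := List.eq_nil_of_length_eq_zero (by omega)
  have h2 : v.flatMap g = [] := List.eq_nil_of_length_eq_zero (by omega)
  intro a ha
  rcases List.mem_append.1 ha with h | h
  · exact nil_of_flatMap h1 a h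
  · exact nil_of_flatMap h2 a h

/-- the places right of the block -/
theorem caseQ {N : ℕ} {S : List ℕ → List ℕ → Prop} (hS : Wo N S) {L u v : List ℕ}
    (hL : L = [1, 0] ∨ L = [0, 1])
    (hu : ∀ a ∈ u ++ v, a = 0 ∨ a = 1 ∨ a = 2 ∨ a = 5 ∨ a = 8)
    (h : S (2 :: (L ++ [5, 1, 8])) (2 :: ((u ++ 1 :: v) ++ [5, 1, 8]))) :
    ∀ a ∈ u ++ v, a = 0 := by
  have h1 := hS.sub (gt 1 1 5) (gt_ok (by norm_num) (by norm_num) (by norm_num)) h
  have h2 := hS.sub (gt 2 8 5) (gt_ok (by norm_num) (by norm_num) (by norm_num)) h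
  have l1 : (2 :: (L ++ [5, 1, 8])).flatMap (gt 1 1 5) = [1, 2, 1] := by
    rcases hL with rfl | rfl <;> rfl
  have l2 : (2 :: (L ++ [5, 1, 8])).flatMap (gt 2 8 5) = [1, 2, 1] := by
    rcases hL with rfl | rfl <;> rfl
  have r1 : (2 :: ((u ++ 1 :: v) ++ [5, 1, 8])).flatMap (gt 1 1 5) =
      u.flatMap (gt 1 1 5) ++ 1 :: (v.flatMap (gt 1 1 5) ++ [2, 1]) := by
    simp [gt]
  have r2 : (2 :: ((u ++ 1 :: v) ++ [5, 1, 8])).flatMap (gt 2 8 5) =
      1 :: (u.flatMap (gt 2 8 5) ++ (v.flatMap (gt 2 8 5) ++ [2, 1])) := by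
    simp [gt]
  rw [l1, r1] at h1
  rw [l2, r2] at h2
  have k1 := congrArg List.length (hS.iso _ h1)
  have k2 := congrArg List.length (hS.iso _ h2)
  simp only [List.length_append, List.length_cons, List.length_nil] at k1 k2
  intro a ha
  have m1 := nil_both (g := gt 1 1 5) (by omega) a ha
  have m2 := nil_both (g := gt 2 8 5) (by omega) a ha
  rcases hu a ha with e | e | e | e | e
  · exact e
  all_goals subst e; simp [gt] at m1 m2

/-- the places left of the block -/
theorem caseP {N : ℕ} {S : List ℕ → List ℕ → Prop} (hS : Wo N S) {L u v : List ℕ}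
    (hL : L = [1, 0] ∨ L = [0, 1])
    (hu : ∀ a ∈ u ++ v, a = 0 ∨ a = 1 ∨ a = 2 ∨ a = 5 ∨ a = 8)
    (h : S (8 :: 1 :: 2 :: (L ++ [5])) (8 :: 1 :: 2 :: ((u ++ 1 :: v) ++ [5]))) :
    ∀ a ∈ u ++ v, a = 0 := by
  have h1 := hS.sub (gt 1 1 2) (gt_ok (by norm_num) (by norm_num) (by norm_num)) h
  have h2 := hS.sub (gt 8 5 2) (gt_ok (by norm_num) (by norm_num) (by norm_num)) h
  have l1 : (8 :: 1 :: 2 :: (L ++ [5])).flatMap (gt 1 1 2) = [1, 2, 1] := by
    rcases hL with rfl | rfl <;> rfl
  have l2 : (8 :: 1 :: 2 :: (L ++ [5])).flatMap (gt 8 5 2) = [1, 2, 1] := by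
    rcases hL with rfl | rfl <;> rfl
  have r1 : (8 :: 1 :: 2 :: ((u ++ 1 :: v) ++ [5])).flatMap (gt 1 1 2) =
      1 :: 2 :: (u.flatMap (gt 1 1 2) ++ 1 :: (v.flatMap (gt 1 1 2))) := by
    simp [gt]
  have r2 : (8 :: 1 :: 2 :: ((u ++ 1 :: v) ++ [5])).flatMap (gt 8 5 2) =
      1 :: 2 :: (u.flatMap (gt 8 5 2) ++ (v.flatMap (gt 8 5 2) ++ [1])) := by
    simp [gt]
  rw [l1, r1] at h1
  rw [l2, r2] at h2
  have k1 := congrArg List.length (hS.iso _ h1)
  have k2 := congrArg List.length (hS.iso _ h2)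
  simp only [List.length_append, List.length_cons, List.length_nil] at k1 k2
  intro a ha
  have m1 := nil_both (g := gt 1 1 2) (by omega) a ha
  have m2 := nil_both (g := gt 8 5 2) (by omega) a ha
  rcases hu a ha with e | e | e | e | e
  · exact e
  all_goals subst e; simp [gt] at m1 m2

/-- the final substitution -/
def hx (N : ℕ) (w2 w5 : List ℕ) (a : ℕ) : List ℕ :=
  if a = 0 then List.replicate N 0 else if a = 1 then [1] else if a = 2 then w2 else
    if a = 5 then w5 else []

theorem hx_ok (N : ℕ) (w2 w5 : List ℕ) : ∀ h, h % 3 = 0 → ∀ a ∈ hx N w2 w5 h, a % 3 = 0 := by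
  intro c hc a ha
  by_cases e0 : c = 0
  · rw [hx, if_pos e0] at ha
    rw [List.eq_of_mem_replicate ha]
  have e1 : c ≠ 1 := by intro e; subst e; simp at hc
  have e2 : c ≠ 2 := by intro e; subst e; simp at hc
  have e5 : c ≠ 5 := by intro e; subst e; simp at hc
  rw [hx, if_neg e0, if_neg e1, if_neg e2, if_neg e5] at ha
  exact absurd ha List.not_mem_nil

theorem hx_rep (N : ℕ) (w2 w5 : List ℕ) (α : ℕ) :
    (List.replicate α 0).flatMap (hx N w2 w5) = List.replicate (α * N) 0 :=
  flatMap_rep (hx N w2 w5) N rfl α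

theorem rep_app (a b : ℕ) (t : List ℕ) : List.replicate a 0 ++ (List.replicate b 0 ++ t) =
    List.replicate (a + b) 0 ++ t := by
  rw [← List.append_assoc, List.replicate_append_replicate]

/-- `la` -/
theorem fin_la (hvy : HvyStmt) {N : ℕ} {S : List ℕ → List ℕ → Prop} (hS : Wo N S) {α γ : ℕ}
    (hα : 1 ≤ α) (h : S (2 :: ([1, 0] ++ [5, 1, 8]))
      (2 :: ((List.replicate α 0 ++ 1 :: List.replicate γ 0) ++ [5, 1, 8]))) : la N S := by
  have hN := hS.pos
  have h1 := hS.sub (hx N [] (List.replicate N 0 ++ [2])) (hx_ok _ _ _) h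
  have l1 : (2 :: ([1, 0] ++ [5, 1, 8])).flatMap (hx N [] (List.replicate N 0 ++ [2])) =
      [1] ++ (List.replicate (N + N) 0 ++ [2, 1]) := by
    simp [hx, rep_app]
  have r1 : (2 :: ((List.replicate α 0 ++ 1 :: List.replicate γ 0) ++ [5, 1, 8])).flatMap
      (hx N [] (List.replicate N 0 ++ [2])) =
      List.replicate (α * N) 0 ++ ([1] ++ (List.replicate (γ * N + N) 0 ++ [2, 1])) := by
    simp only [List.flatMap_cons, List.flatMap_append, hx_rep]
    simp [hx, rep_app]
  rw [l1, r1] at h1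
  have a1 := ctx hS [1] [2, 1] (hz hvy hS (a := N) (b := N + N) hN (by omega) (by simp) (by simp))
  have a2 := hS.app (hz hvy hS (a := α * N) (b := N)
    (Nat.one_le_iff_ne_zero.2 (Nat.mul_ne_zero (by omega) (by omega))) hN (by simp) (by simp))
    (ctx hS [1] [2, 1] (hz hvy hS (a := γ * N + N) (b := N) (by omega) hN (by simp) (by simp)))
  exact hS.trans a1 (hS.trans h1 a2)

/-- `lb` -/
theorem fin_lb (hvy : HvyStmt) {N : ℕ} {S : List ℕ → List ℕ → Prop} (hS : Wo N S) {α γ : ℕ}
    (hα : 1 ≤ α) (h : S (8 :: 1 :: 2 :: ([1, 0] ++ [5]))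
      (8 :: 1 :: 2 :: ((List.replicate α 0 ++ 1 :: List.replicate γ 0) ++ [5]))) : lb N S := by
  have hN := hS.pos
  have h1 := hS.sub (hx N [2] (List.replicate N 0)) (hx_ok _ _ _) h
  have l1 : (8 :: 1 :: 2 :: ([1, 0] ++ [5])).flatMap (hx N [2] (List.replicate N 0)) =
      [1, 2, 1] ++ (List.replicate (N + N) 0 ++ []) := by
    simp [hx]
  have r1 : (8 :: 1 :: 2 :: ((List.replicate α 0 ++ 1 :: List.replicate γ 0) ++ [5])).flatMap
      (hx N [2] (List.replicate N 0)) =
      ([1, 2] ++ (List.replicate (α * N) 0 ++ [])) ++ ([1] ++ (List.replicate (γ * N + N) 0 ++ [])) := by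
    simp only [List.flatMap_cons, List.flatMap_append, hx_rep]
    simp [hx, rep_app]
  rw [l1, r1] at h1
  have a1 := ctx hS [1, 2, 1] [] (hz hvy hS (a := N) (b := N + N) hN (by omega) (by simp) (by simp))
  have a2 := hS.app (ctx hS [1, 2] [] (hz hvy hS (a := α * N) (b := N)
    (Nat.one_le_iff_ne_zero.2 (Nat.mul_ne_zero (by omega) (by omega))) hN (by simp) (by simp)))
    (ctx hS [1] [] (hz hvy hS (a := γ * N + N) (b := N) (by omega) hN (by simp) (by simp)))
  have a3 := hS.trans a1 (hS.trans h1 a2)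
  simpa [lb] using a3

/-- `ra` -/
theorem fin_ra (hvy : HvyStmt) {N : ℕ} {S : List ℕ → List ℕ → Prop} (hS : Wo N S) {α γ : ℕ}
    (hγ : 1 ≤ γ) (h : S (2 :: ([0, 1] ++ [5, 1, 8]))
      (2 :: ((List.replicate α 0 ++ 1 :: List.replicate γ 0) ++ [5, 1, 8]))) : ra N S := by
  have hN := hS.pos
  have h1 := hS.sub (hx N (List.replicate N 0) [2]) (hx_ok _ _ _) h
  have l1 : (2 :: ([0, 1] ++ [5, 1, 8])).flatMap (hx N (List.replicate N 0) [2]) =
      [] ++ (List.replicate (N + N) 0 ++ [1, 2, 1]) := by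
    simp [hx, rep_app]
  have r1 : (2 :: ((List.replicate α 0 ++ 1 :: List.replicate γ 0) ++ [5, 1, 8])).flatMap
      (hx N (List.replicate N 0) [2]) =
      List.replicate (N + α * N) 0 ++ ([1] ++ (List.replicate (γ * N) 0 ++ [2, 1])) := by
    simp only [List.flatMap_cons, List.flatMap_append, hx_rep]
    simp [hx, rep_app]
  rw [l1, r1] at h1
  have a1 := ctx hS [] [1, 2, 1] (hz hvy hS (a := N) (b := N + N) hN (by omega) (by simp) (by simp))
  have a2 := hS.app (hz hvy hS (a := N + α * N) (b := N) (by omega) hN (by simp) (by simp))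
    (ctx hS [1] [2, 1] (hz hvy hS (a := γ * N) (b := N)
      (Nat.one_le_iff_ne_zero.2 (Nat.mul_ne_zero (by omega) (by omega))) hN (by simp) (by simp)))
  exact hS.trans a1 (hS.trans h1 a2)

/-- `rb` -/
theorem fin_rb (hvy : HvyStmt) {N : ℕ} {S : List ℕ → List ℕ → Prop} (hS : Wo N S) {α γ : ℕ}
    (hγ : 1 ≤ γ) (h : S (8 :: 1 :: 2 :: ([0, 1] ++ [5]))
      (8 :: 1 :: 2 :: ((List.replicate α 0 ++ 1 :: List.replicate γ 0) ++ [5]))) : rb N S := by
  have hN := hS.pos
  have h1 := hS.sub (hx N (2 :: List.replicate N 0) []) (hx_ok _ _ _) h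
  have l1 : (8 :: 1 :: 2 :: ([0, 1] ++ [5])).flatMap (hx N (2 :: List.replicate N 0) []) =
      [1, 2] ++ (List.replicate (N + N) 0 ++ [1]) := by
    simp [hx, rep_app]
  have r1 : (8 :: 1 :: 2 :: ((List.replicate α 0 ++ 1 :: List.replicate γ 0) ++ [5])).flatMap
      (hx N (2 :: List.replicate N 0) []) =
      ([1, 2] ++ (List.replicate (N + α * N) 0 ++ [])) ++ ([1] ++ (List.replicate (γ * N) 0 ++ [])) := by
    simp only [List.flatMap_cons, List.flatMap_append, hx_rep]
    simp [hx, rep_app]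
  rw [l1, r1] at h1
  have a1 := ctx hS [1, 2] [1] (hz hvy hS (a := N) (b := N + N) hN (by omega) (by simp) (by simp))
  have a2 := hS.app (ctx hS [1, 2] [] (hz hvy hS (a := N + α * N) (b := N) (by omega) hN
    (by simp) (by simp)))
    (ctx hS [1] [] (hz hvy hS (a := γ * N) (b := N)
      (Nat.one_le_iff_ne_zero.2 (Nat.mul_ne_zero (by omega) (by omega))) hN (by simp) (by simp)))
  have a3 := hS.trans a1 (hS.trans h1 a2)
  simpa [rb] using a3

/-- the renaming of the lights -/
def jj (i e : ℕ) : Option ℕ := if e = i then some 0 else none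
/-- the values of the heavy letters -/
def hh (j a : ℕ) : List ℕ := if a = 3 * j + 3 then [0] else []

theorem fj_ok (i j : ℕ) : ∀ h, h % 3 = 0 → ∀ a ∈ fj (jj i) (hh j) h, a % 3 = 0 := by
  intro h hh' a ha
  rw [fj, if_pos hh', hh] at ha
  by_cases e : h = 3 * j + 3
  · rw [if_pos e, List.mem_singleton] at ha
    rw [ha]
  · rw [if_neg e] at ha
    exact absurd ha List.not_mem_nil

theorem fj_mem (i j a : ℕ) : ∀ b ∈ fj (jj i) (hh j) a,
    b = 0 ∨ b = 1 ∨ b = 2 ∨ b = 5 ∨ b = 8 := by
  intro b hb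
  rw [fj] at hb
  split_ifs at hb with h0 h1 h2
  · rw [hh] at hb
    split_ifs at hb with e
    · left
      simpa using hb
    · exact absurd hb List.not_mem_nil
  · rw [jj] at hb
    split_ifs at hb with e
    · right; left
      simpa using hb
    · exact absurd hb List.not_mem_nil
  · have hb' : b = a := by simpa using hb
    subst hb'
    omega
  · rw [jj] at hb
    split_ifs at hb with e
    · right; right; right; right
      simpa using hb
    · exact absurd hb List.not_mem_nil

theorem fj_light (i j : ℕ) : fj (jj i) (hh j) (3 * i + 1) = [1] := by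
  rw [fj, if_neg (by omega), if_pos (by omega), jj, if_pos (by omega)]
  rfl

theorem fj_mark (i j : ℕ) : fj (jj i) (hh j) (3 * j + 3) = [0] := by
  rw [fj, if_pos (by omega), hh, if_pos rfl]

theorem fj_nil (i j a : ℕ) (h : a % 3 = 0 ∨ ∃ e, a = 3 * e + 1) (h1 : a ≠ 3 * i + 1)
    (h2 : a ≠ 3 * j + 3) : fj (jj i) (hh j) a = [] := by
  rcases h with h | ⟨e, rfl⟩
  · rw [fj, if_pos h, hh, if_neg h2]
  · rw [fj, if_neg (by omega), if_pos (by omega), jj, if_neg (by omega)]
    rfl

theorem mem_flat (i j : ℕ) (m : List ℕ) : ∀ b ∈ m.flatMap (fj (jj i) (hh j)),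
    b = 0 ∨ b = 1 ∨ b = 2 ∨ b = 5 ∨ b = 8 := by
  intro b hb
  obtain ⟨a, -, ha⟩ := List.mem_flatMap.1 hb
  exact fj_mem i j a b ha

/-- **MKP** -/
theorem mkp (hvy : HvyStmt) (hsbw : SbwStmt) (hppm : PpmStmt) (hlbk : LbkStmt) : MkpStmt := by
  intro N S P Q g k d i j m1 m2 H hd hi hj1 hj2 hg hS
  have wo := H.wo
  obtain ⟨hperm, -, -, -⟩ := hppm k P Q H.kp H.pm
  obtain ⟨hok, -, -, hord, -⟩ := hlbk N g k d P Q wo.pos H.kp hd H.pm
  have hord' := hord i j hi hj1 hj2 hg
  have hcount : (PP k P).count i + (PP k Q).count i = 1 := by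
    rw [← List.count_append, hperm.count_eq]
    exact List.count_eq_one_of_mem List.nodup_range (List.mem_range.2 (by omega))
  have h1 := wo.sub (fj (jj i) (hh j)) (fj_ok i j) hS
  rw [Wb, hsbw, hsbw] at h1
  have eP : (PP k P).filterMap (jj i) = List.replicate ((PP k P).count i) 0 :=
    filterMap_one i _
  have eQ : (PP k Q).filterMap (jj i) = List.replicate ((PP k Q).count i) 0 :=
    filterMap_one i _
  have eL : (Lb N g k d).flatMap (fj (jj i) (hh j)) = if i ≤ j then [1, 0] else [0, 1] := by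
    rw [flatMap_filter (fj (jj i) (hh j)) (fun c => decide (c = 3 * i + 1 ∨ c = 3 * j + 3)),
      hord']
    · by_cases hij : i ≤ j
      · rw [if_pos hij, if_pos hij]
        simp [fj_light, fj_mark]
      · rw [if_neg hij, if_neg hij]
        simp [fj_light, fj_mark]
    · intro a ha hp
      have hp' : ¬ (a = 3 * i + 1 ∨ a = 3 * j + 3) := by simpa using hp
      refine fj_nil i j a ?_ (fun e => hp' (Or.inl e)) (fun e => hp' (Or.inr e))
      rcases hok.mem a ha with h | ⟨e, -, h⟩
      · exact Or.inl h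
      · exact Or.inr ⟨e, h⟩
  have eR : (m1 ++ (3 * i + 1) :: m2).flatMap (fj (jj i) (hh j)) =
      m1.flatMap (fj (jj i) (hh j)) ++ 1 :: m2.flatMap (fj (jj i) (hh j)) := by
    rw [List.flatMap_append, List.flatMap_cons, fj_light]
    rfl
  rw [eP, eQ, eL, eR] at h1
  have hu : ∀ a ∈ m1.flatMap (fj (jj i) (hh j)) ++ m2.flatMap (fj (jj i) (hh j)),
      a = 0 ∨ a = 1 ∨ a = 2 ∨ a = 5 ∨ a = 8 := by
    intro a ha
    rcases List.mem_append.1 ha with h | h
    · exact mem_flat i j _ a h
    · exact mem_flat i j _ a h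
  have hLc : (if i ≤ j then [1, 0] else [0, 1] : List ℕ) = [1, 0] ∨
      (if i ≤ j then [1, 0] else [0, 1] : List ℕ) = [0, 1] := by
    by_cases hij : i ≤ j
    · exact Or.inl (if_pos hij)
    · exact Or.inr (if_neg hij)
  have pos : ∀ m : List ℕ, 3 * j + 3 ∈ m → 1 ≤ (m.flatMap (fj (jj i) (hh j))).length := by
    intro m hm
    apply List.length_pos_of_mem (a := 0)
    refine List.mem_flatMap.2 ⟨_, hm, ?_⟩
    rw [fj_mark]
    exact List.mem_singleton_self 0
  by_cases hQ : i ∈ PP k Q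
  · have c1 : (PP k Q).count i = 1 := by
      have := List.count_pos_iff.2 hQ
      omega
    have c2 : (PP k P).count i = 0 := by omega
    rw [c1, c2] at h1
    have h2 : S (2 :: ((if i ≤ j then [1, 0] else [0, 1]) ++ [5, 1, 8]))
        (2 :: ((m1.flatMap (fj (jj i) (hh j)) ++ 1 :: m2.flatMap (fj (jj i) (hh j))) ++
          [5, 1, 8])) := h1
    have h3 := caseQ wo hLc hu h2
    have r1 : m1.flatMap (fj (jj i) (hh j)) =
        List.replicate (m1.flatMap (fj (jj i) (hh j))).length 0 :=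
      List.eq_replicate_of_mem (fun a ha => h3 a (List.mem_append_left _ ha))
    have r2 : m2.flatMap (fj (jj i) (hh j)) =
        List.replicate (m2.flatMap (fj (jj i) (hh j))).length 0 :=
      List.eq_replicate_of_mem (fun a ha => h3 a (List.mem_append_right _ ha))
    constructor
    · intro hij hm
      have hp := pos m1 hm
      rw [r1, r2, if_pos hij] at h2
      exact ⟨fun _ => fin_la hvy wo hp h2, fun h => absurd hQ h⟩
    · intro hij hm
      have hp := pos m2 hm
      rw [r1, r2, if_neg (by omega)] at h2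
      exact ⟨fun _ => fin_ra hvy wo hp h2, fun h => absurd hQ h⟩
  · have c1 : (PP k Q).count i = 0 := List.count_eq_zero.2 hQ
    have c2 : (PP k P).count i = 1 := by omega
    rw [c1, c2] at h1
    have h2 : S (8 :: 1 :: 2 :: ((if i ≤ j then [1, 0] else [0, 1]) ++ [5]))
        (8 :: 1 :: 2 :: ((m1.flatMap (fj (jj i) (hh j)) ++ 1 :: m2.flatMap (fj (jj i) (hh j))) ++
          [5])) := h1
    have h3 := caseP wo hLc hu h2
    have r1 : m1.flatMap (fj (jj i) (hh j)) =
        List.replicate (m1.flatMap (fj (jj i) (hh j))).length 0 :=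
      List.eq_replicate_of_mem (fun a ha => h3 a (List.mem_append_left _ ha))
    have r2 : m2.flatMap (fj (jj i) (hh j)) =
        List.replicate (m2.flatMap (fj (jj i) (hh j))).length 0 :=
      List.eq_replicate_of_mem (fun a ha => h3 a (List.mem_append_right _ ha))
    constructor
    · intro hij hm
      have hp := pos m1 hm
      rw [r1, r2, if_pos hij] at h2
      exact ⟨fun h => absurd h hQ, fun _ => fin_lb hvy wo hp h2⟩
    · intro hij hm
      have hp := pos m2 hm
      rw [r1, r2, if_neg (by omega)] at h2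
      exact ⟨fun h => absurd h hQ, fun _ => fin_rb hvy wo hp h2⟩

end Pool.Agent.MWV.H49
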